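import Mathlib
import Pool.Agent.Q98.SR.R
import Pool.Agent.TH53.UG6

/-!
# Uniform growth gap when the eigenvalues have bounded degree over fields of finite exponent modulo the
centre

`G = ⟨S⟩`, `H` is a subgroup of index at most `d`, `Γ = γ_{k+1}(H)` is nilpotent (or `H/[Γ,Γ]` is
not virtually nilpotent).  Let `e, D ≥ 1` be fixed.  Suppose that all eigenvalues `z` of the elements
of `H` on `ℂ ⊗ Γ^ab` which are algebraic units and not roots of unity have degree at most `D` over a
finite Galois extension of `ℚ` (which may depend on `z`) in whose group all `e`-th powers are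
central.  Then `G` is virtually nilpotent or `ρ_S ≥ c / (2 ^ (k + 1) (2 d - 1))`, where `c > 0`
depends only on `e` and `D`.

Proof.  A lower bound for the Mahler measure of such units (`Pool/Agent/Q98/SR`); the Mahler measures
of the eigenvalues bound the growth rate from below (starting library, `Pool/Agent/W963/GE`,
`Pool/Agent/TH53/UG5`).
-/

set_option autoImplicit false

namespace Pool.Agent.Results.MP_d69e80_al.BoundedDegreeEigenvalues

open Filter Topology Polynomial
open scoped Pointwise commutatorElement TensorProduct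

universe u

/-- The term `γ_{k+1}(G)` of the lower central series (so `k = 1` gives `G'`). -/
abbrev gamma (G : Type*) [Group G] (k : ℕ) : Subgroup G := (⊤ : Subgroup G).lowerCentralSeries k

/-- Conjugation by `t` on the abelianization `N^ab` (written additively) of a normal subgroup `N`,
as an endomorphism of the abelian group `N^ab`. -/
noncomputable def conjAb {G : Type*} [Group G] (N : Subgroup G) [N.Normal] (t : G) :
    Module.End ℤ (Additive (Abelianization N)) :=
  (MonoidHom.toAdditive
    (Abelianization.map (MulAut.conjNormal t : N ≃* N).toMonoidHom)).toIntLinearMap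

/-- `z` is an algebraic unit, and not a root of unity -/
def IsFreeUnit (z : ℂ) : Prop :=
  z ≠ 0 ∧ IsIntegral ℤ z ∧ IsIntegral ℤ z⁻¹ ∧ ∀ m : ℕ, 0 < m → z ^ m ≠ 1

/-- `z` has degree at most `D` over a finite Galois extension of `ℚ` in whose group all `e`-th powers
are central -/
def BoundedOver (e D : ℕ) (z : ℂ) : Prop :=
  ∃ L : IntermediateField ℚ ℂ, FiniteDimensional ℚ L ∧ IsGalois ℚ L ∧
    (∀ σ τ : L ≃ₐ[ℚ] L, σ ^ e * τ = τ * σ ^ e) ∧ (minpoly L z).natDegree ≤ D

/-- `Γ = γ_{k+1}(H)` is nilpotent, or `H / [Γ, Γ]` is not virtually nilpotent -/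
def Tail (H : Type u) [Group H] (k : ℕ) : Prop :=
  Group.IsNilpotent (gamma H k) ∨ ¬ Group.IsVirtuallyNilpotent (H ⧸ ⁅gamma H k, gamma H k⁆)

/-- for `Γ = γ_{k+1}(H)`, the eigenvalues `z` of the elements of `H` on `ℂ ⊗ Γ^ab` which are units
and not roots of unity have bounded degree over such fields, as in `BoundedOver` -/
def Eigenvalues (e D : ℕ) (H : Type u) [Group H] (k : ℕ) : Prop :=
  ∀ (t : H) (z : ℂ), Module.End.HasEigenvalue
    (LinearMap.baseChange ℂ (conjAb (gamma H k) t) :
      Module.End ℂ (ℂ ⊗[ℤ] Additive (Abelianization (gamma H k)))) z →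
    IsFreeUnit z → BoundedOver e D z

/-- `ρ` is the exponential growth rate of `S` -/
def IsGrowthRate {G : Type u} [Group G] (S : Set G) (ρ : ℝ) : Prop :=
  Tendsto (fun n : ℕ => Real.log (Nat.card ↥(S ^ n)) / n) atTop (𝓝 ρ)

open Pool.Agent Pool.Agent.TH53.UG Pool.Agent.W963.GE in
lemma base_of_log {M c : ℝ} (hM : 1 < M) (hc : 0 < c) (h : c ≤ Real.log M) :
    2 * c / (1 + 2 * c) / 3 ≤ Real.log (base M) := by
  have hM0 : 0 < M := by linarith
  apply base_exp hM0 _ (by positivity) _
  · have h1 : Real.exp (2 * c) ≤ M ^ 2 := by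
      rw [← Real.le_log_iff_exp_le (by positivity), Real.log_pow]
      push_cast
      linarith
    have h2 := Real.add_one_le_exp (2 * c)
    have h3 : 1 / M ^ 2 ≤ 1 / (1 + 2 * c) :=
      one_div_le_one_div_of_le (by positivity) (by linarith)
    have h4 : 2 * c / (1 + 2 * c) = 1 - 1 / (1 + 2 * c) := by
      field_simp
      ring
    rw [h4]
    linarith
  · rw [div_le_iff₀ (by positivity)]
    linarith

open Pool.Agent Pool.Agent.TH53.UG Pool.Agent.W963.GE in
/-- **Uniform growth gap for groups whose eigenvalues have bounded degree over Galois fields of finite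
exponent modulo the centre.** -/
theorem result : ∀ e D : ℕ, 0 < e → 0 < D → ∃ c : ℝ, 0 < c ∧
    ∀ (k d : ℕ), 1 ≤ k → ∀ (G : Type u) [Group G] (S : Set G), S.Finite →
    Subgroup.closure S = ⊤ → ∀ (H : Subgroup G), H.index ≠ 0 → H.index ≤ d →
    Tail H k → Eigenvalues e D H k →
    ∃ ρ : ℝ, IsGrowthRate S ρ ∧
      (Group.IsVirtuallyNilpotent G ∨ c / (2 ^ (k + 1) * (2 * d - 1)) ≤ ρ) := by
  intro e D he hD
  obtain ⟨c, hc0, hc⟩ := Pool.Agent.Q98.SR.lehmer_bdd e D he hD
  have hb0 : 0 < 2 * c / (1 + 2 * c) / 3 := by positivity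
  refine ⟨min (Real.log 2) (2 * c / (1 + 2 * c) / 3), lt_min (Real.log_pos one_lt_two) hb0, ?_⟩
  intro k d hk G _ S hfin hgen H hH0 hHd hnil hev
  refine ⟨H746UG.rho S, H746UG.tendsto_rho S, ?_⟩
  refine gap_general hk S hfin hgen H hH0 hHd hnil (min_le_left _ _) ?_
  intro hMf t b x hx0 hx hp
  have hxi : IsIntegral ℤ x := integral_of_root _ b hp
  by_cases hi : IsIntegral ℤ x⁻¹
  · have h1 : Module.End.HasEigenvalue (LinearMap.baseChange ℂ (conjAb (gamma H k) t) :
        Module.End ℂ (ℂ ⊗[ℤ] Additive (Abelianization (gamma H k)))) x :=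
      eig_of_root (act (gam H k) t) b hp (minpoly.aeval ℤ x)
    obtain ⟨L, hfd, hgal, hcen, hmem⟩ := hev t x h1 ⟨hx0, hxi, hi, hx⟩
    have h2 := (hc L hfd hgal hcen (minpoly ℤ x) (minpoly.ne_zero hxi) x hx0 hx
      (minpoly.aeval ℤ x) hmem).2 hxi
    have h3 : (1 : ℝ) ≤ ((minpoly ℚ x).natDegree : ℝ) ^ ((1 : ℝ) / (e + 1)) := by
      apply Real.one_le_rpow
      · have : 0 < (minpoly ℚ x).natDegree := minpoly.natDegree_pos (hxi.tower_top (A := ℚ))
        exact_mod_cast this
      · positivity
    have h4 : c ≤ Real.log (MM x) := by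
      refine le_trans ?_ h2
      nlinarith
    have h5 : 1 < MM x := MM_gt x hxi hx0 hx
    exact ((min_le_right _ _).trans (base_of_log h5 hc0 h4)).trans (eta_ge x hx0 hxi)
  · rw [H746UG.eta_eq_log_two x hx0 (fun h => hi h.2)]
    exact min_le_left _ _

end Pool.Agent.Results.MP_d69e80_al.BoundedDegreeEigenvalues
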