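import Pool.Agent.W963.GE.Final

/-!
# The growth gap for metabelian groups is equivalent to Lehmer's conjecture

Partial result on MP_d69e80_al.

For `k, d ≥ 1` consider all groups `G` that have a subgroup `H` of index at most `d` such that
`γ_{k+1}(H)` is nilpotent, or such that `H / [γ_{k+1}(H), γ_{k+1}(H)]` is not virtually nilpotent.
For `k = d = 1` this class contains all metabelian groups.

(1) *Explicit lower bound.* If `G` is in the class, generated by the finite set `S` and not
virtually nilpotent, then there is an algebraic unit `x`, not a root of unity, such that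
`ρ_S ≥ log (b (M_x)) / (2 ^ (k+1) (2 d - 1))`, where `M_x > 1` is the Mahler measure of `x` and
`b (M) = 2 / (1 + exp (-(1 - 1 / M ^ 2)))`, a number greater than `1`.
(2) Lehmer's conjecture with the constant `1 + ε` implies the growth gap
`log (b (1 + ε)) / (2 ^ (k+1) (2 d - 1))` in the class; the growth gap `c` for metabelian groups
implies Lehmer's conjecture with the constant `min 2 (exp c)`.
(3) So Lehmer's conjecture, the growth gap for metabelian groups (the case `r = 2` of the question)
and the growth gap in all the classes are equivalent.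

Proof in outline.  The growth of `S` dominates the growth of the sets of digit sums
`∑ ε_i x ^ i`, `ε_i ∈ {0, 1}`, of an algebraic unit `x` which is not a root of unity; the number of
these sums is at least `b (M_x) ^ n`, by counting the sign patterns of the conjugates outside of the
unit disc, and at most `(2 n) ^ deg M_x ^ n`.
-/

set_option autoImplicit false

namespace Pool.Agent.Results.MP_d69e80_al.LehmerEquivalence

open Filter Topology Polynomial
open scoped Pointwise commutatorElement

universe u

/-- The exponential growth rate `ρ_S = lim (1/n) log |S ^ n|`, where `S ^ n` is the set of all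
products of `n` elements of `S` (pointwise power of sets). -/
noncomputable def rho {G : Type*} [Group G] (S : Set G) : ℝ :=
  limUnder atTop (fun n : ℕ => Real.log (Nat.card ↥(S ^ n)) / n)

/-- The Mahler measure `M_x` of the algebraic integer `x`: that of its minimal polynomial. -/
noncomputable def M (x : ℂ) : ℝ := ((minpoly ℤ x).map (Int.castRingHom ℂ)).mahlerMeasure

/-- `x` is an algebraic unit (`x` and `x⁻¹` are algebraic integers) and not a root of unity. -/
def UnitNotRoot (x : ℂ) : Prop :=
  x ≠ 0 ∧ IsIntegral ℤ x ∧ IsIntegral ℤ x⁻¹ ∧ ∀ m > 0, x ^ m ≠ 1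

/-- `b (M) = 2 / (1 + exp (-(1 - 1 / M ^ 2)))`. -/
noncomputable def b (M : ℝ) : ℝ := 2 / (1 + Real.exp (-(1 - 1 / M ^ 2)))

/-- The term `γ_{k+1}(G)` of the lower central series (so `k = 1` gives the derived subgroup). -/
abbrev gamma (G : Type*) [Group G] (k : ℕ) : Subgroup G := (⊤ : Subgroup G).lowerCentralSeries k

/-- The class of groups, for `k` and `d`: there is a subgroup `H` of finite index, at most `d`, such
that `γ_{k+1}(H)` is nilpotent or `H / [γ_{k+1}(H), γ_{k+1}(H)]` is not virtually nilpotent. -/
def InClass (k d : ℕ) (G : Type*) [Group G] : Prop :=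
  ∃ H : Subgroup G, H.index ≠ 0 ∧ H.index ≤ d ∧ (Group.IsNilpotent (gamma H k) ∨
    ¬ Group.IsVirtuallyNilpotent (H ⧸ ⁅gamma H k, gamma H k⁆))

/-- The growth gap `c` in the class for `k` and `d`. -/
def ClassGap (k d : ℕ) (c : ℝ) : Prop :=
  ∀ (G : Type) [Group G] (S : Set G), S.Finite → Subgroup.closure S = ⊤ →
    InClass k d G → Group.IsVirtuallyNilpotent G ∨ c ≤ rho S

/-- The growth gap `c` for metabelian groups (solvability class at most 2). -/
def MetabelianGap (c : ℝ) : Prop :=
  ∀ (G : Type) [Group G] (S : Set G), S.Finite → Subgroup.closure S = ⊤ →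
    derivedSeries G 2 = ⊥ → Group.IsVirtuallyNilpotent G ∨ c ≤ rho S

/-- Lehmer's conjecture with the constant `1 + ε`: the Mahler measure of a nonzero integral
polynomial is `1` or at least `1 + ε`. -/
def Lehmer (ε : ℝ) : Prop :=
  ∀ p : ℤ[X], p ≠ 0 → (p.map (Int.castRingHom ℂ)).mahlerMeasure = 1 ∨
    1 + ε ≤ (p.map (Int.castRingHom ℂ)).mahlerMeasure

/-- (1) A group `G` of the class for `k ≥ 1` and `d`, generated by the finite set `S`, is virtually
nilpotent, or there is an algebraic unit `x`, not a root of unity, of Mahler measure `M_x > 1`, with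
`ρ_S ≥ log (b (M_x)) / (2 ^ (k+1) (2 d - 1)) > 0`. (2) Lehmer's conjecture with the constant `1 + ε`
implies the growth gap `log (b (1 + ε)) / (2 ^ (k+1) (2 d - 1)) > 0` in the class. (3) The growth gap
`c` for metabelian groups implies Lehmer's conjecture with the constant `min 2 (exp c)`. (4) Lehmer's
conjecture, the existence of a positive growth gap for metabelian groups and the existence of one in
each class are equivalent. -/
theorem result :
    (∀ (k d : ℕ), 1 ≤ k → ∀ (G : Type u) [Group G] (S : Set G), S.Finite →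
      Subgroup.closure S = ⊤ → InClass k d G →
      Group.IsVirtuallyNilpotent G ∨ ∃ x : ℂ, UnitNotRoot x ∧ 1 < M x ∧
        0 < Real.log (b (M x)) / (2 ^ (k + 1) * (2 * d - 1)) ∧
        Real.log (b (M x)) / (2 ^ (k + 1) * (2 * d - 1)) ≤ rho S) ∧
    (∀ (ε : ℝ), 0 < ε → Lehmer ε → ∀ k d : ℕ, 1 ≤ k → 1 ≤ d →
      0 < Real.log (b (1 + ε)) / (2 ^ (k + 1) * (2 * d - 1)) ∧
      ClassGap k d (Real.log (b (1 + ε)) / (2 ^ (k + 1) * (2 * d - 1)))) ∧
    (∀ c : ℝ, 0 < c → MetabelianGap c → Lehmer (min 1 (Real.exp c - 1))) ∧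
    List.TFAE [∃ ε > 0, Lehmer ε, ∃ c > 0, MetabelianGap c,
      ∀ k d : ℕ, 1 ≤ k → 1 ≤ d → ∃ c > 0, ClassGap k d c] := by
  have hpos : ∀ k d : ℕ, 1 ≤ d → (0 : ℝ) < 2 ^ (k + 1) * (2 * d - 1) := by
    intro k d hd
    have h3 : (1 : ℝ) ≤ d := by exact_mod_cast hd
    have h4 : (0 : ℝ) < 2 * d - 1 := by linarith
    positivity
  refine ⟨fun k d hk G _ S hS hgen hG => ?_, fun ε hε hL k d hk hd => ⟨?_, ?_⟩,
    fun c _ h => W963.GE.lehmer_of_met h, ?_⟩
  · rcases W963.GE.main_ineq k d hk G S hS hgen hG with h | ⟨x, hx, h⟩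
    · exact Or.inl h
    · have hM : 1 < M x := W963.GE.MM_gt x hx.2.1 hx.1 hx.2.2.2
      have hd : 1 ≤ d := by
        obtain ⟨H, h1, h2, _⟩ := hG
        omega
      exact Or.inr ⟨x, hx, hM, div_pos (Real.log_pos (W963.GE.one_lt_base hM)) (hpos k d hd), h⟩
  · exact div_pos (Real.log_pos (W963.GE.one_lt_base (by linarith))) (hpos k d hd)
  · exact W963.GE.gap_of_lehmer hε hL k d hk
  · tfae_have 1 ↔ 2 := W963.GE.equivalences.1
    tfae_have 1 ↔ 3 := W963.GE.equivalences.2
    tfae_finish

end Pool.Agent.Results.MP_d69e80_al.LehmerEquivalence
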