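import Mathlib
import Pool.Agent.Q132.LC.Basic
import Pool.Agent.TH53.UG6

/-!
# Uniform growth gap when the eigenvalues have many conjugates in finitely many local fields

`G = ⟨S⟩`, `H` is a subgroup of index at most `d`, `Γ = γ_{k+1}(H)` is nilpotent (or `H/[Γ,Γ]` is
not virtually nilpotent). We consider the eigenvalues `z` of the elements of `H` on `ℂ ⊗ Γ^ab` which
are algebraic units and not roots of unity; `n` is the degree of `z`.

(A) Let `δ > 0` and let `K_1, …, K_r` be nonarchimedean local fields of characteristic zero. If each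
such `z` has at least `δ √n (1 + log n) ^ (1/4)` conjugates in one of the fields `K_i`, then `G` is
virtually nilpotent or `ρ_S ≥ c / (2 ^ k d)`, where `c > 0` depends on `δ` and the `K_i` only.

(B) The gap `1 / (11 * 2 ^ (k + 1) * (2 d - 1))`, which does not depend on the local fields, holds
if the numbers `R_i` of conjugates of `z` in local fields `K_i` over different primes `p_i` satisfy
`S² ≥ n² (1 + log n) + n W` with `S = ∑ R_i² (log p_i / e_i) ∑_{j < J_i} 1 / ((q_i - 1) q_i^j)`,
`W = ∑ J_i R_i log p_i / e_i`.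

Proof. Products of conjugates of `z, z², …, z^k` in `K_i` fall into few residue classes, so their
discriminant is divisible by a high power of `p_i`; this gives a lower bound for the Mahler measure
of `z` (starting library, `Pool/Agent/Y642/LZ`). Roots of unity in `K_i` are treated by passing to
one residue class modulo `p_i²` (`Pool/Agent/Q132/LC`). The Mahler measures of the eigenvalues bound
the growth rate from below (starting library, `Pool/Agent/W963/GE`, `Pool/Agent/TH53/UG5`).
-/

set_option autoImplicit false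

namespace Pool.Agent.Results.MP_d69e80_al.LocalEigenvalues

open Filter Topology Polynomial ValuativeRel
open scoped Pointwise commutatorElement TensorProduct

universe u v w

/-- The term `γ_{k+1}(G)` of the lower central series (so `k = 1` gives `G'`). -/
abbrev gamma (G : Type*) [Group G] (k : ℕ) : Subgroup G := (⊤ : Subgroup G).lowerCentralSeries k

/-- Conjugation by `t` on the abelianization `N^ab` (written additively) of a normal subgroup `N`,
as an endomorphism of the abelian group `N^ab`. -/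
noncomputable def conjAb {G : Type*} [Group G] (N : Subgroup G) [N.Normal] (t : G) :
    Module.End ℤ (Additive (Abelianization N)) :=
  (MonoidHom.toAdditive
    (Abelianization.map (MulAut.conjNormal t : N ≃* N).toMonoidHom)).toIntLinearMap

/-- `z` is an algebraic unit, and not a root of unity -/
def IsFreeUnit (z : ℂ) : Prop :=
  z ≠ 0 ∧ IsIntegral ℤ z ∧ IsIntegral ℤ z⁻¹ ∧ ∀ m : ℕ, 0 < m → z ^ m ≠ 1

/-- A nonarchimedean local field `K` of characteristic zero (in the sense of Mathlib) with the
prime number `p` below it and its ramification index `e`, so `p 𝒪 = 𝔪 ^ e`. -/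
structure Place : Type (u + 1) where
  p : ℕ
  hp : p.Prime
  K : Type u
  [fld : Field K]
  [val : ValuativeRel K]
  [top : TopologicalSpace K]
  [loc : IsNonarchimedeanLocalField K]
  [char0 : CharZero K]
  e : ℕ
  he : 1 ≤ e
  ram : Ideal.span {((p : ℕ) : 𝒪[K])} = 𝓂[K] ^ e

attribute [instance] Place.fld Place.val Place.top Place.loc Place.char0

/-- the number of elements of the residue field -/
noncomputable def Place.q (D : Place.{u}) : ℕ := Nat.card 𝓀[D.K]

/-- the integer polynomial `f` of degree `n` has at least `δ √n (1 + log n) ^ (1/4)` different zeros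
in the local field `D.K` -/
def ManyZeros (δ : ℝ) (D : Place.{u}) (f : ℤ[X]) : Prop :=
  δ * √(f.natDegree : ℝ) * (1 + Real.log f.natDegree) ^ (1 / 4 : ℝ) ≤ ((f.rootSet D.K).ncard : ℝ)

/-- `Y` consists of zeros of `f`, and no two of its elements differ by a root of unity only -/
def ZeroSet (f : ℤ[X]) {K : Type u} [Field K] (Y : Finset K) : Prop :=
  (∀ x ∈ Y, aeval x f = 0) ∧ ∀ x ∈ Y, ∀ y ∈ Y, ∀ m : ℕ, 1 ≤ m → x ^ m = y ^ m → x = y

/-- the sum `S` -/
noncomputable def sqSum {ι : Type v} [Fintype ι] (D : ι → Place.{u}) (J : ι → ℕ)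
    (Y : ∀ i, Finset (D i).K) : ℝ :=
  ∑ i, ((Y i).card : ℝ) ^ 2 * (∑ j ∈ Finset.range (J i), 1 / (((D i).q - 1) * ((D i).q : ℝ) ^ j)) /
    (D i).e * Real.log (D i).p

/-- the sum `W` -/
noncomputable def linSum {ι : Type v} [Fintype ι] (D : ι → Place.{u}) (J : ι → ℕ)
    (Y : ∀ i, Finset (D i).K) : ℝ :=
  ∑ i, (J i : ℝ) * (Y i).card / (D i).e * Real.log (D i).p

/-- sets of zeros of `f` (of degree `n`) in finitely many local fields over different primes, no two
zeros differing by a root of unity only, with `S² ≥ n² (1 + log n) + n W` -/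
def Crowded (f : ℤ[X]) : Prop :=
  ∃ (ι : Type v) (_ : Fintype ι) (D : ι → Place.{u}) (Y : ∀ i, Finset (D i).K) (J : ι → ℕ),
    (Function.Injective fun i => (D i).p) ∧ (∀ i, ZeroSet f (Y i)) ∧
    (f.natDegree : ℝ) ^ 2 * (1 + Real.log f.natDegree) + f.natDegree * linSum D J Y ≤
      sqSum D J Y ^ 2

/-- `ρ` is the exponential growth rate of `S` -/
def IsGrowthRate {G : Type w} [Group G] (S : Set G) (ρ : ℝ) : Prop :=
  Tendsto (fun n : ℕ => Real.log (Nat.card ↥(S ^ n)) / n) atTop (𝓝 ρ)

/-- the group `G = ⟨S⟩` is virtually nilpotent or has growth rate at least `b` for the generating set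
`S` -/
def GapFor {G : Type w} [Group G] (S : Set G) (b : ℝ) : Prop :=
  ∃ ρ : ℝ, IsGrowthRate S ρ ∧ (Group.IsVirtuallyNilpotent G ∨ b ≤ ρ)

/-- `Γ = γ_{k+1}(H)` is nilpotent, or `H / [Γ, Γ]` is not virtually nilpotent -/
def Tail (H : Type w) [Group H] (k : ℕ) : Prop :=
  Group.IsNilpotent (gamma H k) ∨ ¬ Group.IsVirtuallyNilpotent (H ⧸ ⁅gamma H k, gamma H k⁆)

/-- for `Γ = γ_{k+1}(H)`, the minimal polynomials of the eigenvalues of the elements of `H` on
`ℂ ⊗ Γ^ab` which are units and not roots of unity have the property `P` -/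
def EigenvaluesWith (P : ℤ[X] → Prop) (H : Type w) [Group H] (k : ℕ) : Prop :=
  ∀ (t : H) (z : ℂ), Module.End.HasEigenvalue
    (LinearMap.baseChange ℂ (conjAb (gamma H k) t) :
      Module.End ℂ (ℂ ⊗[ℤ] Additive (Abelianization (gamma H k)))) z →
    IsFreeUnit z → P (minpoly ℤ z)

/-- The growth gap `c / (2 ^ (k + 1) (2 d - 1))` for the groups `G` with a subgroup `H` of index at
most `d` such that `Γ = γ_{k+1}(H)` is nilpotent (or `H / [Γ, Γ]` is not virtually nilpotent) and
the minimal polynomials of the eigenvalues of the elements of `H` on `ℂ ⊗ Γ^ab` which are units and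
not roots of unity have the property `P`. -/
def GrowthGap (P : ℤ[X] → Prop) (c : ℝ) : Prop :=
  ∀ (k d : ℕ), 1 ≤ k → ∀ (G : Type w) [Group G] (S : Set G), S.Finite →
    Subgroup.closure S = ⊤ → ∀ (H : Subgroup G), H.index ≠ 0 → H.index ≤ d →
    Tail H k → EigenvaluesWith P H k → GapFor S (c / (2 ^ (k + 1) * (2 * d - 1)))

open Pool.Agent Pool.Agent.TH53.UG Pool.Agent.W963.GE in
/-- a lower bound for the Mahler measures gives a growth gap -/
theorem gap_of_mahler (P : ℤ[X] → Prop) {c : ℝ} (hc : c ≤ Real.log 2)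
    (h : ∀ x : ℂ, x ≠ 0 → IsIntegral ℤ x → (∀ m : ℕ, 0 < m → x ^ m ≠ 1) → P (minpoly ℤ x) →
      c ≤ Real.log (base (MM x))) : GrowthGap.{w} P c := by
  intro k d hk G _ S hfin hgen H hH0 hHd hnil hev
  refine ⟨H746UG.rho S, H746UG.tendsto_rho S, ?_⟩
  refine gap_general hk S hfin hgen H hH0 hHd hnil hc ?_
  intro hMf t b x hx0 hx hp
  have hxi : IsIntegral ℤ x := integral_of_root _ b hp
  by_cases hi : IsIntegral ℤ x⁻¹
  · have h1 : Module.End.HasEigenvalue (LinearMap.baseChange ℂ (conjAb (gamma H k) t) :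
        Module.End ℂ (ℂ ⊗[ℤ] Additive (Abelianization (gamma H k)))) x :=
      eig_of_root (act (gam H k) t) b hp (minpoly.aeval ℤ x)
    exact (h x hx0 hxi hx (hev t x h1 ⟨hx0, hxi, hi, hx⟩)).trans (eta_ge x hx0 hxi)
  · rw [H746UG.eta_eq_log_two x hx0 (fun h => hi h.2)]
    exact hc

open Pool.Agent Pool.Agent.TH53.UG Pool.Agent.W963.GE in
lemma base_of_log {M c : ℝ} (hM : 1 < M) (hc : 0 < c) (h : c ≤ Real.log M) :
    2 * c / (1 + 2 * c) / 3 ≤ Real.log (base M) := by
  have hM0 : 0 < M := by linarith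
  apply base_exp hM0 _ (by positivity) _
  · have h1 : Real.exp (2 * c) ≤ M ^ 2 := by
      rw [← Real.le_log_iff_exp_le (by positivity), Real.log_pow]
      push_cast
      linarith
    have h2 := Real.add_one_le_exp (2 * c)
    have h3 : 1 / M ^ 2 ≤ 1 / (1 + 2 * c) :=
      one_div_le_one_div_of_le (by positivity) (by linarith)
    have h4 : 2 * c / (1 + 2 * c) = 1 - 1 / (1 + 2 * c) := by
      field_simp
      ring
    rw [h4]
    linarith
  · rw [div_le_iff₀ (by positivity)]
    linarith

/-- the place of the library -/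
def toPlace (D : Place.{u}) : Pool.Agent.Y642.LZ.Place.{u} :=
  { p := D.p, hp := D.hp, K := D.K, e := D.e, he := D.he, ram := D.ram }

/-- **Uniform growth gap for groups whose eigenvalues have many conjugates in local fields.** -/
theorem result :
    (∀ {ι : Type v} [Finite ι] (D : ι → Place.{u}) (δ : ℝ), 0 < δ →
      ∃ c : ℝ, 0 < c ∧ GrowthGap.{w} (fun f => ∃ i, ManyZeros δ (D i) f) c) ∧
    GrowthGap.{w} Crowded.{u, v} (1 / 11) := by
  have hlog2 : (1 / 3 : ℝ) ≤ Real.log 2 := by
    have := Real.log_two_gt_d9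
    linarith
  refine ⟨?_, ?_⟩
  · intro ι _ D δ hδ
    have hD : ∀ i, ∃ c : ℝ, 0 < c ∧ ∀ f : ℤ[X],
        Irreducible f → 1 < (f.map (Int.castRingHom ℂ)).mahlerMeasure →
        ∀ Z : Finset (D i).K, (∀ x ∈ Z, aeval x f = 0) →
        δ ^ 2 * (f.natDegree * √(1 + Real.log f.natDegree)) ≤ (Z.card : ℝ) ^ 2 →
        c ≤ Real.log (f.map (Int.castRingHom ℂ)).mahlerMeasure := fun i =>
      Pool.Agent.Q132.LC.lehmer_local (toPlace (D i)) (pow_pos hδ 2)
    choose c hc0 hc using hD
    obtain ⟨c₀, hc₀, hle⟩ : ∃ c₀ : ℝ, 0 < c₀ ∧ ∀ i, c₀ ≤ c i := by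
      rcases isEmpty_or_nonempty ι with hι | hι
      · exact ⟨1, one_pos, fun i => (hι.false i).elim⟩
      · obtain ⟨i₀, h⟩ := Finite.exists_min c
        exact ⟨c i₀, hc0 i₀, h⟩
    refine ⟨2 * c₀ / (1 + 2 * c₀) / 3, by positivity, gap_of_mahler _ ?_ ?_⟩
    · refine le_trans ?_ hlog2
      apply div_le_div_of_nonneg_right _ (by norm_num)
      rw [div_le_one (by positivity)]
      linarith
    · rintro x hx0 hxi hx ⟨i, hi⟩
      have hM := Pool.Agent.W963.GE.MM_gt x hxi hx0 hx
      refine base_of_log hM hc₀ ((hle i).trans ?_)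
      classical
      have hf : Irreducible (minpoly ℤ x) := minpoly.irreducible hxi
      have hfin : ((minpoly ℤ x).rootSet (D i).K).Finite := Polynomial.rootSet_finite _ _
      refine hc i (minpoly ℤ x) hf hM hfin.toFinset ?_ ?_
      · intro y hy
        rw [Set.Finite.mem_toFinset, mem_rootSet] at hy
        exact hy.2
      · unfold ManyZeros at hi
        rw [Set.ncard_eq_toFinset_card _ hfin] at hi
        have hdeg : 0 < (minpoly ℤ x).natDegree := minpoly.natDegree_pos hxi
        have hL : 0 ≤ Real.log (minpoly ℤ x).natDegree :=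
          Real.log_nonneg (by exact_mod_cast hdeg)
        have h1 := pow_le_pow_left₀ (by positivity) hi 2
        refine le_trans (le_of_eq ?_) h1
        rw [mul_pow, mul_pow, Real.sq_sqrt (Nat.cast_nonneg _), ← Real.rpow_natCast (_ ^ (1/4 : ℝ)),
          ← Real.rpow_mul (by positivity), Real.sqrt_eq_rpow]
        norm_num
        ring
  · refine gap_of_mahler _ (by linarith) ?_
    rintro x hx0 hxi hx ⟨ι, hι, D, Y, J, hinj, hY, hS⟩
    have hM := Pool.Agent.W963.GE.MM_gt x hxi hx0 hx
    have h1 : (1189 / 1000 : ℝ) ≤ Pool.Agent.W963.GE.MM x :=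
      Pool.Agent.Y642.LZ.sharp_lehmer (minpoly ℤ x) (minpoly.irreducible hxi) hM Finset.univ
        (fun i => toPlace (D i)) hinj.injOn Y (fun i _ => (hY i).1) (fun i _ => (hY i).2) J
        (S := sqSum D J Y) (W := linSum D J Y) rfl rfl hS
    refine le_trans (by norm_num) (Pool.Agent.TH53.UG.base_exp (δ := 292 / 1000) (by linarith) ?_
      (by norm_num) (by norm_num))
    have h2 : (1189 / 1000 : ℝ) ^ 2 ≤ Pool.Agent.W963.GE.MM x ^ 2 :=
      pow_le_pow_left₀ (by norm_num) h1 2
    have h3 : 1 / Pool.Agent.W963.GE.MM x ^ 2 ≤ 1 / (1189 / 1000 : ℝ) ^ 2 :=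
      one_div_le_one_div_of_le (by norm_num) h2
    have h4 : 1 / (1189 / 1000 : ℝ) ^ 2 ≤ 708 / 1000 := by norm_num
    linarith

end Pool.Agent.Results.MP_d69e80_al.LocalEigenvalues
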