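import Pool.Agent.Q117.UG.Solv

/-!
# MP_d69e80_al: for a bounded number of generators the question is a question on two generators

For every `m ≥ 2` the answer to Q1 for generating sets with at most `m` elements (for all derived
lengths) is the same as the answer for generating sets with at most two elements.  More precisely, if
`c` is a gap for two-generated solvable groups of derived length at most `r + 1`, then `c / m` is a
gap for `m`-generated solvable groups of derived length at most `r`.

Idea of the proof.  Let `G`, generated by `x_1, …, x_m`, not be virtually nilpotent.  In the wreath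
product of `G` with the cyclic group `C` of order `m` consider the subgroup `H` generated by a
generator of `C` and the element `(x_1, …, x_m)` of the base group.  A subgroup of finite index of
`H` maps onto `G`, the derived length of `H` is at most one more than that of `G`, and the growth
rate of `H` is at most `m` times the growth rate of `G`.
-/

namespace Pool.Agent.Results.MP_d69e80_al.TwoGenerators

open Filter Topology
open scoped Pointwise

/-- The exponential growth rate `ρ_S = lim (1/n) log |S ^ n|`, where `S ^ n` is the set of all
products of `n` elements of `S` (pointwise power of sets). -/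
noncomputable def rho {G : Type} [Group G] (S : Set G) : ℝ :=
  limUnder atTop (fun n : ℕ => Real.log (Nat.card ↥(S ^ n)) / n)

/-- `c` is a growth gap for the solvable groups of solvability class at most `r` and their finite
generating sets with at most `m` elements: such a group is virtually nilpotent, or `ρ_S > c`. -/
def GapFor (m r : ℕ) (c : ℝ) : Prop :=
  ∀ (G : Type) [Group G] (S : Finset G), S.card ≤ m → Subgroup.closure (S : Set G) = ⊤ →
    derivedSeries G r = ⊥ → Group.IsVirtuallyNilpotent G ∨ c < rho (S : Set G)

/-- For `m ≥ 2`: there is a positive growth gap for each solvability class and generating sets with at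
most `m` elements if and only if there is one for each solvability class and generating sets with at
most two elements; and a gap `c` for class `r + 1` and two generators gives the gap `c / m` for class
`r` and `m` generators. -/
theorem result (m : ℕ) (hm : 2 ≤ m) :
    ((∀ r : ℕ, ∃ c : ℝ, 0 < c ∧ GapFor m r c) ↔ (∀ r : ℕ, ∃ c : ℝ, 0 < c ∧ GapFor 2 r c)) ∧
    (∀ (r : ℕ) (c : ℝ), GapFor 2 (r + 1) c → GapFor m r (c / m)) := by
  have hm' : (0 : ℝ) < m := by exact_mod_cast (by omega : 0 < m)
  have key : ∀ (r : ℕ) (c : ℝ), GapFor 2 (r + 1) c → GapFor m r (c / m) := by
    intro r c h G _ S hS hgen hr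
    by_contra hcon
    push Not at hcon
    obtain ⟨hG, hle⟩ := hcon
    obtain ⟨H, _, Y, hY, hH, hYc, hHr, hrho⟩ :=
      Pool.Agent.Q117.UG.two_solv m (by omega) S hS hgen hG r hr
    rcases h H Y hYc hY hHr with h1 | h1
    · exact hH h1
    · have h2 : rho (Y : Set H) ≤ m * rho (S : Set G) := hrho
      have h3 : rho (S : Set G) * m ≤ c := by
        rwa [le_div_iff₀ hm'] at hle
      linarith
  refine ⟨⟨fun h r => ?_, fun h r => ?_⟩, key⟩
  · obtain ⟨c, hc, hg⟩ := h r
    exact ⟨c, hc, fun G _ S hS => hg G S (hS.trans hm)⟩
  · obtain ⟨c, hc, hg⟩ := h (r + 1)
    exact ⟨c / m, by positivity, key r c hg⟩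

end Pool.Agent.Results.MP_d69e80_al.TwoGenerators
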